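import Mathlib

set_option autoImplicit false

namespace Pool.Agent.KAL
open Finset Module

section pt
variable {P : Type*} [DecidableEq P]

/-- `A` is pointed: some functional is positive on all its vectors -/
def Pt {E : Type*} [AddCommGroup E] [Module ℝ E] (v : P → E) (A : Finset P) : Prop :=
  ∃ l : Dual ℝ E, ∀ x ∈ A, 0 < l (v x)

/-- general position: every set of at most `finrank` rows is independent -/
def GPos {E : Type*} [AddCommGroup E] [Module ℝ E] (v : P → E) (R : Finset P) : Prop :=
  ∀ T ⊆ R, T.card ≤ finrank ℝ E → ∀ b : P → ℝ, ∑ x ∈ T, b x • v x = 0 → ∀ x ∈ T, b x = 0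

end pt

end Pool.Agent.KAL
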