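import Pool.Agent.Lib_helper16.FL.FL3

set_option autoImplicit false

/-!
Block FL4 (helper32): columns with marks, from the flag FL3 (version for `Bld`, `Opn`, `Col` of helper19).
-/

namespace Pool.Agent.KAL
open Finset Module

section fl4
variable {P : Type*}

/-- independent vectors: prescribed values of a functional -/
theorem fl4_dual {M : Type*} [AddCommGroup M] [Module ℝ M] (u : P → M) (s : Finset P)
    (h : ∀ b : P → ℝ, ∑ x ∈ s, b x • u x = 0 → ∀ x ∈ s, b x = 0) (c : P → ℝ) :
    ∃ φ : Dual ℝ M, ∀ x ∈ s, φ (u x) = c x := by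
  have hli : LinearIndepOn ℝ u (s : Set P) := linearIndepOn_finset_iff.2 h
  have hli' : LinearIndependent ℝ (fun x : (s : Set P) => u x) := hli
  obtain ⟨g, hg⟩ := LinearMap.exists_extend
    ((Basis.span hli').constr ℝ (fun x : (s : Set P) => c x))
  refine ⟨g, fun x hx => ?_⟩
  have h1 : ((Basis.span hli' ⟨x, hx⟩ : Submodule.span ℝ (Set.range fun x : (s : Set P) => u x)) : M)
      = u x := by
    rw [Basis.span_apply]
  have h2 := congrArg (fun f => f (Basis.span hli' ⟨x, hx⟩)) hg
  simp only [LinearMap.comp_apply, Submodule.subtype_apply, Basis.constr_basis] at h2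
  rw [h1] at h2
  exact h2

/-- independent functionals: prescribed values at a vector -/
theorem fl4_pre {W : Type*} [AddCommGroup W] [Module ℝ W] [FiniteDimensional ℝ W]
    (u : P → Dual ℝ W) (s : Finset P)
    (h : ∀ b : P → ℝ, ∑ x ∈ s, b x • u x = 0 → ∀ x ∈ s, b x = 0) (c : P → ℝ) :
    ∃ l : W, ∀ x ∈ s, u x l = c x := by
  obtain ⟨φ, hφ⟩ := fl4_dual u s h c
  refine ⟨(evalEquiv ℝ W).symm φ, fun x hx => ?_⟩
  rw [← hφ x hx]
  simp

/-- small sets are pointed -/
theorem pt_of_card {E : Type*} [AddCommGroup E] [Module ℝ E] [FiniteDimensional ℝ E]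
    (v : P → E) (A : Finset P) (hgp : GPos v A) (hA : A.card ≤ finrank ℝ E) : Pt v A := by
  obtain ⟨φ, hφ⟩ := fl4_dual v A (hgp A subset_rfl hA) (fun _ => 1)
  exact ⟨φ, fun x hx => by rw [hφ x hx]; exact one_pos⟩

end fl4

/-- a column with marks `X` over the rows `R` can be opened -/
theorem opn_pt {P : Type*} [DecidableEq P] {E : Type*} [AddCommGroup E]
    [Module ℝ E] [FiniteDimensional ℝ E]
    (v : P → E) (X R : Finset P) (hgp : GPos v (X ∪ R)) (hXR : Disjoint X R)
    (hX : X.card < finrank ℝ E) :
    Opn (finrank ℝ E - X.card) R (fun A => Pt v (A ∪ X)) := by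
  classical
  -- the vectors of `X`
  have hXi : ∀ b : P → ℝ, ∑ x ∈ X, b x • v x = 0 → ∀ x ∈ X, b x = 0 :=
    hgp X subset_union_left hX.le
  have hli : LinearIndependent ℝ (fun x : (X : Set P) => v x) :=
    linearIndepOn_finset_iff.2 hXi
  set S : Submodule ℝ E := Submodule.span ℝ (Set.range fun x : (X : Set P) => v x) with hS
  have hSr : finrank ℝ S = X.card := by
    rw [hS, finrank_span_eq_card hli]
    simp
  let W : Submodule ℝ (Dual ℝ E) := S.dualAnnihilator
  have hWr : finrank ℝ W = finrank ℝ E - X.card := by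
    have := Subspace.finrank_add_finrank_dualAnnihilator_eq S
    show finrank ℝ S.dualAnnihilator = _
    omega
  have hWX : ∀ l : W, ∀ x ∈ X, (l : Dual ℝ E) (v x) = 0 := by
    intro l x hx
    exact (Submodule.mem_dualAnnihilator _).1 l.2 _ (Submodule.subset_span ⟨⟨x, hx⟩, rfl⟩)
  have hWmem : ∀ l : Dual ℝ E, (∀ x ∈ X, l (v x) = 0) → l ∈ W := by
    intro l hl
    show l ∈ S.dualAnnihilator
    rw [Submodule.mem_dualAnnihilator]
    intro w hw
    refine Submodule.span_induction ?_ ?_ ?_ ?_ hw
    · rintro _ ⟨x, rfl⟩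
      exact hl x x.2
    · simp
    · intro a b _ _ ha hb
      rw [map_add, ha, hb, add_zero]
    · intro a b _ hb
      rw [map_smul, hb, smul_zero]
  let p : P → Dual ℝ W := fun x => (Dual.eval ℝ E (v x)).comp W.subtype
  have hp : ∀ (x : P) (l : W), p x l = (l : Dual ℝ E) (v x) := fun x l => rfl
  have hWd : finrank ℝ (Dual ℝ W) = finrank ℝ W := Subspace.dual_finrank_eq (K := ℝ) (V := W)
  have hgpW : GPos p R := by
    intro T hT hTc b hb x0 hx0
    rw [hWd] at hTc
    have hTX : Disjoint X T := hXR.mono_right hT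
    have hc : (X ∪ T).card ≤ finrank ℝ E := by
      rw [card_union_of_disjoint hTX]
      omega
    obtain ⟨φ, hφ⟩ := fl4_dual v (X ∪ T)
      (hgp (X ∪ T) (union_subset_union_right hT) hc) (fun x => if x = x0 then 1 else 0)
    have hx0X : x0 ∉ X := fun h => (Finset.disjoint_left.1 hTX h) hx0
    have hφW : φ ∈ W := by
      apply hWmem
      intro x hx
      rw [hφ x (mem_union_left _ hx), if_neg]
      rintro rfl
      exact hx0X hx
    have h1 := congrArg (fun f : Dual ℝ W => f ⟨φ, hφW⟩) hb
    simp only [LinearMap.sum_apply, LinearMap.smul_apply, smul_eq_mul, LinearMap.zero_apply] at h1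
    rw [Finset.sum_eq_single x0] at h1
    · rw [hp] at h1
      simp only at h1
      rw [hφ x0 (mem_union_right _ hx0), if_pos rfl, mul_one] at h1
      exact h1
    · intro x hx hne
      rw [hp]
      simp only
      rw [hφ x (mem_union_right _ hx), if_neg hne, mul_zero]
    · exact fun h => absurd hx0 h
  have hW1 : 1 ≤ finrank ℝ W := by
    rw [hWr]
    omega
  obtain ⟨g, h1, h2⟩ := flag (W := W) p R hgpW hW1 (finrank ℝ E - X.card) hWr.le
  refine ⟨_, h2, ?_, ?_⟩
  rotate_left
  · -- small sets
    intro A hA hAc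
    have hAc' : A.card < finrank ℝ W := by
      rw [hWr]
      exact hAc
    -- `g` and `p x`, `x ∈ A` are independent
    let q : Option P → Dual ℝ W := fun o => o.elim g p
    have hq : ∀ b : Option P → ℝ, ∑ o ∈ insertNone A, b o • q o = 0 →
        ∀ o ∈ insertNone A, b o = 0 := by
      intro b hb
      rw [Finset.sum_insertNone] at hb
      have e0 : b none = 0 := h1 A hA hAc' (b none) (fun x => b (some x)) hb
      have e1 : ∑ x ∈ A, b (some x) • p x = 0 := by
        rw [e0] at hb
        simpa [q] using hb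
      have e2 := hgpW A hA (by rw [hWd]; exact hAc'.le)
        (fun x => b (some x)) e1
      intro o ho
      rcases o with _ | x
      · exact e0
      · exact e2 x (by simpa using ho)
    obtain ⟨l, hl⟩ := fl4_pre (W := W) q (insertNone A) hq (fun _ => 1)
    refine ⟨l, ?_, ?_⟩
    · have := hl none (by simp)
      show 0 < q none l
      rw [this]
      exact one_pos
    · intro x hx
      have := hl (some x) (by simpa using hx)
      show 0 < q (some x) l
      rw [this]
      exact one_pos
  · intro A hA hΓ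
    obtain ⟨l, -, hl⟩ := hΓ
    obtain ⟨l0, hl0⟩ := fl4_dual v X hXi (fun _ => 1)
    obtain ⟨N, hN⟩ := (A.image fun x => -(l0 (v x)) / (l : Dual ℝ E) (v x)).exists_le
    refine ⟨(N + 1) • (l : Dual ℝ E) + l0, fun x hx => ?_⟩
    rw [LinearMap.add_apply, LinearMap.smul_apply, smul_eq_mul]
    rcases mem_union.1 hx with hxA | hxX
    · have hpos : 0 < (l : Dual ℝ E) (v x) := hl x hxA
      have := hN _ (mem_image_of_mem _ hxA)
      rw [div_le_iff₀ hpos] at this
      nlinarith
    · rw [hWX l x hxX, hl0 x hxX]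
      norm_num

theorem GPos.mono {P : Type*} {E : Type*} [AddCommGroup E] [Module ℝ E] {v : P → E}
    {R R' : Finset P} (h : GPos v R) (hR : R' ⊆ R) : GPos v R' :=
  fun T hT => h T (hT.trans hR)

/-- a column with marks `X` over the rows `R` -/
theorem col_pt {P : Type*} [DecidableEq P] {E : Type*} [AddCommGroup E]
    [Module ℝ E] [FiniteDimensional ℝ E]
    (v : P → E) (X R : Finset P) (hgp : GPos v (X ∪ R)) (hXR : Disjoint X R)
    (hX : X.card ≤ finrank ℝ E) :
    Col (finrank ℝ E - X.card) R (fun A => Pt v (A ∪ X)) := by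
  refine ⟨?_, ?_, ?_⟩
  · rintro A B hAB ⟨l, hl⟩
    exact ⟨l, fun x hx => hl x (union_subset_union_left hAB hx)⟩
  · intro A hA hAc
    refine pt_of_card v _ (hgp.mono ?_) ?_
    · exact union_subset (hA.trans subset_union_right) subset_union_left
    · have := card_union_le A X
      omega
  · intro X' R' hX' hR' hd hc
    have hd' : Disjoint X X' := hXR.mono_right hX'
    have h1 := opn_pt v (X ∪ X') R'
      (hgp.mono (union_subset (union_subset_union_right hX') (hR'.trans subset_union_right)))
      (disjoint_union_left.2 ⟨hXR.mono_right hR', hd⟩)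
      (by rw [card_union_of_disjoint hd']; omega)
    rw [card_union_of_disjoint hd', ← Nat.sub_sub] at h1
    have h2 : (fun A => Pt v (A ∪ (X ∪ X'))) = fun A => Pt v (X' ∪ A ∪ X) := by
      funext A
      congr 1
      ext y
      simp only [mem_union]
      tauto
    rw [← h2]
    exact h1

end Pool.Agent.KAL
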